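import Mathlib

/-!
# The norm of a filtration
-/

namespace Pool.Agent.Helper11.Obs

/-- The square of the norm of a filtration `F` indexed by the real numbers: the sum of
`a ^ 2 * dim (F a / ⋃ a' > a, F a')` over all `a`. -/
noncomputable def filNorm {κ : Type*} [Field κ] {M : Type*} [AddCommGroup M] [Module κ M]
    (F : ℝ → Submodule κ M) : ℝ :=
  ∑ᶠ a : ℝ, a ^ 2 * ((Module.finrank κ (F a) : ℝ) -
    Module.finrank κ (⨆ a' > a, F a' : Submodule κ M))

end Pool.Agent.Helper11.Obs
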