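import Mathlib
import Pool.Agent.Helper10.GIT.Integral
import Pool.Agent.Helper11.GIT.Kempf

/-!
# Tensors of mixed shapes under a product of general linear groups: definitions
(project CAN, MP_5f0950_ag)

The group is the product of the `GL (d c)`, `c : Fin P`. A shape `χ = ⟨b, c₁, …, c_b⟩` is a list of
classes; tensors of shape `χ` are functions of `b` indices, the `i`-th of which has class `c_i`.
They are acted upon by the group through `act (sh g χ)`, with the `act` of `Helper10.GIT.Defs`.
-/

open Finset

namespace Pool.Agent.Helper11.Can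

open Pool.Agent.Helper10.GIT Pool.Agent.Helper11.GIT

/-- a shape: the list of the classes of the letters of a word -/
abbrev Shape (P : ℕ) : Type := Σ b : ℕ, (Fin b → Fin P)

section

variable {P : ℕ} (d : Fin P → ℕ)

/-- letters -/
abbrev Let : Type := Σ c : Fin P, Fin (d c)

/-- the dimensions of the slots of a shape -/
abbrev dims (χ : Shape P) : Fin χ.1 → ℕ := fun i => d (χ.2 i)

/-- words of a given shape -/
abbrev Word (χ : Shape P) : Type := Idx (dims d χ)

/-- all words -/
abbrev Words : Type := Σ χ : Shape P, Word d χ

/-- tensors of a given shape -/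
abbrev Ten (R : Type*) (χ : Shape P) : Type _ := Word d χ → R

/-- families of sets of tensors -/
abbrev Family (R : Type*) : Type _ := ∀ χ : Shape P, Set (Ten d R χ)

end

variable {P : ℕ} {d : Fin P → ℕ}

/-- the letter of a word at a position -/
def lt {χ : Shape P} (w : Word d χ) (i : Fin χ.1) : Let d := ⟨χ.2 i, w i⟩

/-- the element of the product of the groups `GL (d (χ i))` given by an element of the product of
the groups `GL (d c)` -/
def sh {R : Type*} (g : Mats d R) (χ : Shape P) : Mats (dims d χ) R := fun i => g (χ.2 i)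

section forms

variable {R : Type*} [CommRing R]

/-- the determinant, evaluated at a family of letters (zero if one of them is not of class `c`) -/
def eps' (c : Fin P) (l : Fin (d c) → Let d) : R :=
  Matrix.det (Matrix.of fun i j => if l i = ⟨c, j⟩ then (1 : R) else 0)

/-- the entry of a matrix at two letters (zero unless both are of class `c`) -/
def ent (c : Fin P) (M : Matrix (Fin (d c)) (Fin (d c)) R) (l l' : Let d) : R :=
  ∑ i, ∑ j, (if l = ⟨c, i⟩ then 1 else 0) * (if l' = ⟨c, j⟩ then 1 else 0) * M i j

/-- the position at which a letter of a tuple of words stands -/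
abbrev Pos {I : Type} (χ : I → Shape P) : Type := Σ r : I, Fin (χ r).1

/-- the letter of a tuple of words at a position -/
def ltp {I : Type} {χ : I → Shape P} (W : ∀ r, Word d (χ r)) (q : Pos χ) : Let d :=
  lt (W q.1) q.2

open Classical in
/-- A product of determinants: the tensors `z r` are contracted with a product of determinants
`x : S`, of the classes `cl x`, in an order given by `σ`. -/
noncomputable def dform {I : Type} [Fintype I] {χ : I → Shape P} {S : Type} [Fintype S]
    (cl : S → Fin P) (σ : (Σ x : S, Fin (d (cl x))) ≃ Pos χ) (z : ∀ r, Ten d R (χ r)) : R :=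
  ∑ W : ∀ r, Word d (χ r), (∏ x, eps' (cl x) fun i => ltp W (σ ⟨x, i⟩)) * ∏ r, z r (W r)

open Classical in
/-- The tensors `z r` are contracted with a product of the forms `B c`, in an order given by
`σ`. -/
noncomputable def pform (B : Mats d R) {I : Type} [Fintype I] {χ : I → Shape P} {S : Type}
    [Fintype S] (cl : S → Fin P) (σ : S × Fin 2 ≃ Pos χ) (z : ∀ r, Ten d R (χ r)) : R :=
  ∑ W : ∀ r, Word d (χ r), (∏ x, ent (cl x) (B (cl x)) (ltp W (σ (x, 0))) (ltp W (σ (x, 1)))) *
    ∏ r, z r (W r)

/-- all products of determinants of tensors of `A`, one of them in `N`, vanish -/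
def DZero (A N : Family d R) : Prop :=
  ∀ (I : Type) [Fintype I] (χ : I → Shape P) (S : Type) [Fintype S] (cl : S → Fin P)
    (σ : (Σ x : S, Fin (d (cl x))) ≃ Pos χ) (z : ∀ r, Ten d R (χ r)),
    (∀ r, z r ∈ A (χ r)) → (∃ r, z r ∈ N (χ r)) → dform cl σ z = 0

/-- all full contractions, by the forms `B c`, of products of tensors of `A`, one of them in `N`,
vanish -/
def PZero (B : Mats d R) (A N : Family d R) : Prop :=
  ∀ (I : Type) [Fintype I] (χ : I → Shape P) (S : Type) [Fintype S] (cl : S → Fin P)
    (σ : S × Fin 2 ≃ Pos χ) (z : ∀ r, Ten d R (χ r)),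
    (∀ r, z r ∈ A (χ r)) → (∃ r, z r ∈ N (χ r)) → pform B cl σ z = 0

/-- the coordinates of the translate of a tensor by the generic matrices -/
noncomputable def cf {χ : Shape P} (z : Ten d R χ) (w : Word d χ) : MvPolynomial (GV d) R :=
  act (sh (gen d R) χ) (fun w' => MvPolynomial.C (z w')) w

end forms

section weights

/-- the support of a family of sets of tensors after the change of bases `h` -/
def suppW {κ : Type*} [CommRing κ] (h : Mats d κ) (A : Family d κ) : Set (Words d) :=
  {w | w.2 ∈ supp (sh h w.1) (A w.1)}

/-- the number of times the letter `l` occurs in the word `w` -/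
def cnt (w : Words d) (l : Let d) : ℕ := #{i : Fin w.1.1 | lt w.2 i = l}

/-- There is no finite tuple of words in `SA`, one of them in `SN`, in which two letters of the
same class always occur equally often. -/
def Unbal (SA SN : Set (Words d)) : Prop :=
  ¬ ∃ (I : Type) (_ : Fintype I) (W : I → Words d) (m : Fin P → ℕ), (∀ r, W r ∈ SA) ∧
    (∃ r, W r ∈ SN) ∧ ∀ l : Let d, ∑ r, cnt (W r) l = m l.1

/-- the weight of a word -/
noncomputable def wgt (γ : WSpace d) (w : Words d) : ℝ := ∑ i, γ (lt w.2 i)

/-- the bases `h` and the weights `γ` are adapted to the families `A` and `N`: the words in the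
support of `A` have weight `≥ 0`, those in the support of `N` have weight `≥ 1` -/
structure Adapted {κ : Type*} [Field κ] (A N : Family d κ) (h : Mats d κ) (γ : WSpace d) :
    Prop where
  det : ∀ c, (h c).det ≠ 0
  sum : ∀ c, ∑ a, γ ⟨c, a⟩ = 0
  nonneg : ∀ w ∈ suppW h A, 0 ≤ wgt γ w
  one_le : ∀ w ∈ suppW h N, 1 ≤ wgt γ w

/-- the weights `γ` are adapted, and their norm is minimal -/
def Optimal {κ : Type*} [Field κ] (A N : Family d κ) (h : Mats d κ) (γ : WSpace d) : Prop :=
  Adapted A N h γ ∧ ∀ h' γ', Adapted A N h' γ' → ‖γ‖ ≤ ‖γ'‖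

/-- the subspaces given by bases and weights -/
def flag {κ : Type*} [Field κ] (h : Mats d κ) (γ : WSpace d) (c : Fin P) (a : ℝ) :
    Submodule κ (Fin (d c) → κ) where
  carrier := {x | ∀ b, γ ⟨c, b⟩ < a → (h c).mulVec x b = 0}
  add_mem' := fun {x y} hx hy b hb => by
    rw [Matrix.mulVec_add, Pi.add_apply, hx b hb, hy b hb, add_zero]
  zero_mem' := fun b _ => by rw [Matrix.mulVec_zero, Pi.zero_apply]
  smul_mem' := fun r x hx b hb => by
    rw [Matrix.mulVec_smul, Pi.smul_apply, hx b hb, smul_zero]

end weights

/-- the image of a tensor in an extension -/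
def emb {K : Type*} (κ : Type*) [CommRing K] [CommRing κ] [Algebra K κ] {χ : Shape P}
    (z : Ten d K χ) : Ten d κ χ := fun w => algebraMap K κ (z w)

/-- the image of a family in an extension -/
def ext {K : Type*} (κ : Type*) [CommRing K] [CommRing κ] [Algebra K κ] (A : Family d K) :
    Family d κ := fun χ => emb κ '' A χ

/-- the image of a vector in an extension -/
def embV {K : Type*} (κ : Type*) [CommRing K] [CommRing κ] [Algebra K κ] {k : ℕ}
    (x : Fin k → K) : Fin k → κ := fun i => algebraMap K κ (x i)

/-- the shape with two letters of class `c` -/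
abbrev two (c : Fin P) : Shape P := ⟨2, fun _ => c⟩

/-- a matrix as a tensor with two indices of class `c` -/
def mten {R : Type*} (c : Fin P) (M : Matrix (Fin (d c)) (Fin (d c)) R) : Ten d R (two c) :=
  fun w => M (w (0 : Fin 2)) (w (1 : Fin 2))

end Pool.Agent.Helper11.Can
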