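import Mathlib
import Pool.Agent.Helper11.Can.Defs
import Pool.Agent.Helper11.Iso.Piece
import Pool.Agent.Helper11.ObsThm

/-!
# The tensors given by algebraic classes: definitions (project CAN, MP_5f0950_ag)
-/

universe u v w t

open CategoryTheory Finset

namespace Pool.Agent.Helper11.Can

open Pool.Agent.Helper10 hiding IsAlgAut parityPart
open SmProjVar SPre Pool.Agent.Helper10.GIT Pool.Agent.Helper11.Iso

section coh

variable {k : Type u} [Field k] {K : Type t} [Field K] {Ω : Type v} [Field Ω] [Algebra K Ω]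

/-- a class of varieties which is stable under products and whose members satisfy D -/
structure DClass (S : SPre.{u, v, w, t} k K Ω) (𝒳 : SmProjVar k → Prop) : Prop where
  d : ∀ X, 𝒳 X → S.D X
  prod : ∀ X Y, 𝒳 X → 𝒳 Y → 𝒳 (X.prod Y)

variable (S : SPre.{u, v, w, t} k K Ω) {P : ℕ} {d : Fin P → ℕ} {V : Fin P → SmProjVar k}
  (e : ∀ c, Fin (d c) → S.H (V c))

/-- the product of the pull-backs of the letters of a word -/
noncomputable def wd {χ : Shape P} {T : SmProjVar k}
    (f : ∀ i : Fin χ.1, T.toOver ⟶ (V (χ.2 i)).toOver) (w : Word d χ) : S.H T :=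
  (List.ofFn fun i => S.pull (f i) (e (χ.2 i) (w i))).prod

/-- the tensor given by a class `r` on `T`, a morphism `p : T → X`, a class `x` on `X` and
morphisms `f i` from `T` to the `V c` -/
noncomputable def ctens {χ : Shape P} {T X : SmProjVar k} (p : T.toOver ⟶ X.toOver)
    (f : ∀ i : Fin χ.1, T.toOver ⟶ (V (χ.2 i)).toOver) (r : S.H T) (x : S.H X) : Ten d Ω χ :=
  fun w => S.tr T (r * S.pull p x * wd S e f w)

/-- the tensors given by algebraic classes -/
def famA (𝒳 : SmProjVar k → Prop) : Family d Ω := fun χ =>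
  {z | ∃ (T X : SmProjVar k) (p : T.toOver ⟶ X.toOver)
    (f : ∀ i : Fin χ.1, T.toOver ⟶ (V (χ.2 i)).toOver) (r : S.H T) (x : S.H X),
    𝒳 X ∧ r ∈ S.alg T ∧ z = ctens S e p f r x}

/-- the tensors given by numerically trivial classes -/
def famN (𝒳 : SmProjVar k → Prop) : Family d Ω := fun χ =>
  {z | ∃ (T X : SmProjVar k) (p : T.toOver ⟶ X.toOver)
    (f : ∀ i : Fin χ.1, T.toOver ⟶ (V (χ.2 i)).toOver) (r : S.H T) (x : S.H X),
    𝒳 X ∧ S.rad T r ∧ z = ctens S e p f r x}

end coh

section weil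

variable {k : Type u} [Field k] {K : Type v} [Field K] [CharZero K]
  (W : WeilCohomology.{u, v, w} k K) {P : ℕ} {d : Fin P → ℕ} {V : Fin P → SmProjVar k}
  (e : ∀ c, Fin (d c) → W.H (V c))

/-- the product of the pull-backs of the letters of a word -/
noncomputable def kwd {χ : Shape P} {T : SmProjVar k}
    (f : ∀ i : Fin χ.1, T.toOver ⟶ (V (χ.2 i)).toOver) (w : Word d χ) : W.H T :=
  (List.ofFn fun i => W.pull (f i) (e (χ.2 i) (w i))).prod

/-- the tensor given by a class `r` on `T`, a morphism `p : T → X`, a class `x` on `X` and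
morphisms `f i` from `T` to the `V c` -/
noncomputable def kten {χ : Shape P} {T X : SmProjVar k} (p : T.toOver ⟶ X.toOver)
    (f : ∀ i : Fin χ.1, T.toOver ⟶ (V (χ.2 i)).toOver) (r : W.H T) (x : W.H X) : Ten d K χ :=
  fun w => W.tr T (r * W.pull p x * kwd W e f w)

/-- the tensors given by algebraic classes -/
def kA (𝒳 : SmProjVar k → Prop) : Family d K := fun χ =>
  {z | ∃ (T X : SmProjVar k) (p : T.toOver ⟶ X.toOver)
    (f : ∀ i : Fin χ.1, T.toOver ⟶ (V (χ.2 i)).toOver) (r : W.H T) (x : W.H X),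
    𝒳 X ∧ r ∈ W.algClasses T ∧ z = kten W e p f r x}

/-- the tensors given by numerically trivial classes -/
def kN (𝒳 : SmProjVar k → Prop) : Family d K := fun χ =>
  {z | ∃ (T X : SmProjVar k) (p : T.toOver ⟶ X.toOver)
    (f : ∀ i : Fin χ.1, T.toOver ⟶ (V (χ.2 i)).toOver) (r : W.H T) (x : W.H X),
    𝒳 X ∧ r ∈ W.algClasses T ∧ (∀ a ∈ W.algClasses T, W.tr T (r * a) = 0) ∧
      z = kten W e p f r x}

/-- the classes `1 ⊗ e c b` -/
def oneF (Ω : Type t) [Field Ω] [Algebra K Ω] : ∀ c, Fin (d c) → (W.toSPre Ω).H (V c) :=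
  fun c b => Obs.one W Ω (e c b)

end weil

/-- the tensors with at most `n` indices -/
def trunc {R : Type*} {P : ℕ} {d : Fin P → ℕ} (n : ℕ) (A : Family d R) : Family d R :=
  fun χ => {z | z ∈ A χ ∧ χ.1 ≤ n}

end Pool.Agent.Helper11.Can
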