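import Mathlib
import Pool.Agent.Helper11.Can.Defs

/-!
# The canonical filtration: basic lemmas
-/

universe u v t

open Finset Matrix

namespace Pool.Agent.Helper11.Can

open Pool.Agent.Helper10.GIT Pool.Agent.Helper11.GIT

variable {P : ℕ} {d : Fin P → ℕ}

lemma Unbal.mono {SA SN SA' SN' : Set (Words d)} (h : Unbal SA SN) (hA : SA' ⊆ SA)
    (hN : SN' ⊆ SN) : Unbal SA' SN' := by
  rintro ⟨I, hI, W, m, h1, ⟨r, h2⟩, h3⟩
  exact h ⟨I, hI, W, m, fun r => hA (h1 r), ⟨r, hN h2⟩, h3⟩

lemma finite_words (n : ℕ) : {w : Words d | w.1.1 ≤ n}.Finite := by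
  classical
  let f : (Σ b : Fin (n + 1), Σ c : Fin b → Fin P, (∀ i, Fin (d (c i)))) → Words d :=
    fun x => ⟨⟨x.1, x.2.1⟩, x.2.2⟩
  refine (Set.finite_range f).subset ?_
  rintro ⟨⟨b, c⟩, w⟩ hb
  exact ⟨⟨⟨b, Nat.lt_succ_of_le hb⟩, c, w⟩, rfl⟩

lemma suppW_le {κ : Type*} [CommRing κ] {A : Family d κ} {n : ℕ} (hn : ∀ χ, n < χ.1 → A χ = ∅)
    (h : Mats d κ) : suppW h A ⊆ {w : Words d | w.1.1 ≤ n} := by
  rintro ⟨χ, w⟩ ⟨z, hz, -⟩
  by_contra hlt
  change ¬ χ.1 ≤ n at hlt
  have h1 : A χ = ∅ := hn χ (not_le.mp hlt)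
  rw [h1] at hz
  exact hz

lemma suppW_mono {κ : Type*} [CommRing κ] {A N : Family d κ} (hNA : ∀ χ, N χ ⊆ A χ)
    (h : Mats d κ) : suppW h N ⊆ suppW h A := by
  rintro ⟨χ, w⟩ ⟨z, hz, hw⟩
  exact ⟨z, hNA χ hz, hw⟩

section

variable {K : Type v} [Field K] (κ : Type t) [Field κ] [Algebra K κ]

lemma ext_mono {A N : Family d K} (hNA : ∀ χ, N χ ⊆ A χ) (χ : Shape P) :
    ext κ N χ ⊆ ext κ A χ := Set.image_mono (hNA χ)

lemma ext_empty {A : Family d K} {n : ℕ} (hn : ∀ χ, n < χ.1 → A χ = ∅) (χ : Shape P)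
    (h : n < χ.1) : ext κ A χ = ∅ := by
  rw [ext, hn χ h, Set.image_empty]

lemma emb_mten (c : Fin P) (G : Matrix (Fin (d c)) (Fin (d c)) K) :
    emb κ (mten c G) = mten c (G.map (algebraMap K κ)) := rfl

lemma embV_injective {k : ℕ} : Function.Injective (embV κ : (Fin k → K) → Fin k → κ) := by
  intro x y h
  funext i
  exact (algebraMap K κ).injective (congrFun h i)

lemma embV_add {k : ℕ} (x y : Fin k → K) : embV κ (x + y) = embV κ x + embV κ y := by
  funext i; simp [embV]

lemma embV_smul {k : ℕ} (a : K) (x : Fin k → K) :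
    embV κ (a • x) = algebraMap K κ a • embV κ x := by
  funext i; simp [embV]

lemma embV_zero {k : ℕ} : embV κ (0 : Fin k → K) = 0 := by
  funext i; simp [embV]

lemma embV_mulVec {k l : ℕ} (M : Matrix (Fin k) (Fin l) K) (x : Fin l → K) :
    embV κ (M.mulVec x) = (M.map (algebraMap K κ)).mulVec (embV κ x) := by
  funext i
  simp only [embV, Matrix.mulVec, dotProduct, map_sum, map_mul, Matrix.map_apply]

lemma embV_dotProduct {k : ℕ} (x y : Fin k → K) :
    embV κ x ⬝ᵥ embV κ y = algebraMap K κ (x ⬝ᵥ y) := by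
  simp only [embV, dotProduct, map_sum, map_mul]

lemma embV_vecMul {k l : ℕ} (M : Matrix (Fin k) (Fin l) K) (x : Fin k → K) :
    embV κ (x ᵥ* M) = embV κ x ᵥ* M.map (algebraMap K κ) := by
  funext i
  simp only [embV, Matrix.vecMul, dotProduct, map_sum, map_mul, Matrix.map_apply]

end

/-- the rational part of a subspace -/
def ratS {K : Type v} [Field K] {κ : Type t} [Field κ] [Algebra K κ] {k : ℕ}
    (F : Submodule κ (Fin k → κ)) : Submodule K (Fin k → K) where
  carrier := {x | embV κ x ∈ F}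
  add_mem' := fun {x y} hx hy => by
    change embV κ (x + y) ∈ F
    rw [embV_add]; exact F.add_mem hx hy
  zero_mem' := by
    change embV κ 0 ∈ F
    rw [embV_zero]; exact F.zero_mem
  smul_mem' := fun a x hx => by
    change embV κ (a • x) ∈ F
    rw [embV_smul]; exact F.smul_mem _ hx

lemma mem_ratS {K : Type v} [Field K] {κ : Type t} [Field κ] [Algebra K κ] {k : ℕ}
    {F : Submodule κ (Fin k → κ)} {x : Fin k → K} : x ∈ ratS (K := K) F ↔ embV κ x ∈ F := Iff.rfl

section flag

variable {κ : Type t} [Field κ]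

lemma mem_flag {h : Mats d κ} {γ : WSpace d} {c : Fin P} {a : ℝ} {x : Fin (d c) → κ} :
    x ∈ flag h γ c a ↔ ∀ b, γ ⟨c, b⟩ < a → (h c).mulVec x b = 0 := Iff.rfl

/-- the flag is spanned by members of the dual basis -/
lemma flag_le_span {h : Mats d κ} (hh : ∀ c, (h c).det ≠ 0) {γ : WSpace d} {c : Fin P} {a : ℝ} :
    flag h γ c a ≤ Submodule.span κ
      {x | ∃ b, a ≤ γ ⟨c, b⟩ ∧ x = ((h c)⁻¹).mulVec (Pi.single b 1)} := by
  intro x hx
  have hu : IsUnit (h c).det := isUnit_iff_ne_zero.mpr (hh c)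
  have h1 : x = ∑ b, (h c).mulVec x b • ((h c)⁻¹).mulVec (Pi.single b 1) := by
    have h2 : (h c).mulVec x = ∑ b, (h c).mulVec x b • Pi.single b (1 : κ) := by
      funext i
      simp [Finset.sum_apply, Pi.single_apply]
    have h3 : ((h c)⁻¹).mulVec ((h c).mulVec x) = x := by
      rw [Matrix.mulVec_mulVec, Matrix.nonsing_inv_mul _ hu, Matrix.one_mulVec]
    conv_lhs => rw [← h3, h2]
    rw [Matrix.mulVec_sum]
    exact sum_congr rfl fun b _ => Matrix.mulVec_smul _ _ _
  rw [h1]
  refine Submodule.sum_mem _ fun b _ => ?_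
  by_cases hb : γ ⟨c, b⟩ < a
  · rw [hx b hb, zero_smul]; exact Submodule.zero_mem _
  · exact Submodule.smul_mem _ _ (Submodule.subset_span ⟨b, not_lt.mp hb, rfl⟩)

lemma single_mem_flag {h : Mats d κ} (hh : ∀ c, (h c).det ≠ 0) {γ : WSpace d} {c : Fin P} {a : ℝ}
    {b : Fin (d c)} (hb : a ≤ γ ⟨c, b⟩) : ((h c)⁻¹).mulVec (Pi.single b 1) ∈ flag h γ c a := by
  intro b' hb'
  rw [Matrix.mulVec_mulVec, Matrix.mul_nonsing_inv _ (isUnit_iff_ne_zero.mpr (hh c)),
    Matrix.one_mulVec]
  refine Pi.single_eq_of_ne ?_ _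
  rintro rfl
  exact absurd hb' (not_lt.mpr hb)

end flag

/-- a multilinear map which vanishes on tuples of generators vanishes -/
lemma multilinear_span {R : Type*} [CommSemiring R] {ι : Type*} [Fintype ι] [DecidableEq ι]
    {M : ι → Type*} [∀ i, AddCommMonoid (M i)] [∀ i, Module R (M i)] {N : Type*}
    [AddCommMonoid N] [Module R N] (f : MultilinearMap R M N) (S : ∀ i, Set (M i))
    (h : ∀ x, (∀ i, x i ∈ S i) → f x = 0) (x : ∀ i, M i)
    (hx : ∀ i, x i ∈ Submodule.span R (S i)) : f x = 0 := by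
  have key : ∀ (s : Finset ι) (x : ∀ i, M i), (∀ i ∈ s, x i ∈ Submodule.span R (S i)) →
      (∀ i ∉ s, x i ∈ S i) → f x = 0 := by
    intro s
    induction s using Finset.induction_on with
    | empty => exact fun x _ h' => h x fun i => h' i (Finset.notMem_empty i)
    | insert a s ha ih =>
      intro x hx hx'
      have h1 : ∀ y ∈ Submodule.span R (S a), f (Function.update x a y) = 0 := by
        intro y hy
        induction hy using Submodule.span_induction with
        | mem y hy =>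
          refine ih _ (fun i hi => ?_) (fun i hi => ?_)
          · have hne : i ≠ a := fun h => ha (h ▸ hi)
            rw [Function.update_of_ne hne]
            exact hx i (Finset.mem_insert_of_mem hi)
          · by_cases hia : i = a
            · subst hia; rw [Function.update_self]; exact hy
            · rw [Function.update_of_ne hia]
              exact hx' i fun h => (Finset.mem_insert.mp h).elim hia hi
        | zero => exact f.map_update_zero x a
        | add y y' _ _ hy hy' => rw [f.map_update_add, hy, hy', add_zero]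
        | smul r y _ hy => rw [f.map_update_smul, hy, smul_zero]
      have h2 := h1 (x a) (hx a (Finset.mem_insert_self a s))
      rwa [Function.update_eq_self] at h2
  exact key Finset.univ x (fun i _ => hx i) (fun i hi => absurd (Finset.mem_univ i) hi)

end Pool.Agent.Helper11.Can
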