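import Mathlib
import Pool.Agent.Helper11.Can.NormDef
import Pool.Agent.Helper63.CAN.L18
import Pool.Agent.Helper75.CAN.L19
import Pool.Agent.Helper74.CAN.L20
import Pool.Agent.Helper11.Can.Basic
import Pool.Agent.Helper91.CAN.L7
import Pool.Agent.Helper59.CAN.L8
import Pool.Agent.Helper54.CAN.L13
import Pool.Agent.Helper87.CAN.L15

/-!
# The canonical filtration: minimality and uniqueness
-/

universe u v t

open Finset Matrix

namespace Pool.Agent.Helper11.Can

open Pool.Agent.Helper10.GIT Pool.Agent.Helper11.GIT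
open Pool.Agent.Helper11.Obs (filNorm)

variable {P : ℕ} {d : Fin P → ℕ}

/-- the vanishing property, for tensors of `N` and words of weight `> - 1` -/
theorem flag_vanish' {κ : Type u} [Field κ] {A N : Family d κ} {h : Mats d κ} {γ : WSpace d}
    (ho : Adapted A N h γ) (G B : Mats d κ) (hGB : ∀ c, G c * B c = 1)
    (h2 : ∀ c a b, (h c * G c * (h c)ᵀ)⁻¹ a b ≠ 0 → γ ⟨c, a⟩ + γ ⟨c, b⟩ ≤ 0)
    {χ : Shape P} (z : Ten d κ χ) (a : Fin χ.1 → ℝ) (x : ∀ i, Fin (d (χ.2 i)) → κ)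
    (hx : ∀ i, x i ∈ flag h γ (χ.2 i) (a i))
    (hz : (z ∈ A χ ∧ 0 < ∑ i, a i) ∨ (z ∈ N χ ∧ -1 < ∑ i, a i)) :
    ∑ w : Word d χ, z w * ∏ i, (x i ᵥ* B (χ.2 i)) (w i) = 0 := by
  set u : ∀ i, Fin (d (χ.2 i)) → κ := fun i =>
    ((h (χ.2 i)).mulVec (x i)) ᵥ* (h (χ.2 i) * G (χ.2 i) * (h (χ.2 i))ᵀ)⁻¹ with hu
  have hxu : ∀ i, x i ᵥ* B (χ.2 i) = u i ᵥ* h (χ.2 i) := by
    intro i
    rw [hu]
    simp only
    rw [Matrix.vecMul_vecMul, ← Matrix.vecMul_transpose, Matrix.vecMul_vecMul,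
      L13.transpose_inv_mul (ho.det _) (hGB _)]
  have hsum : ∑ w : Word d χ, z w * ∏ i, (x i ᵥ* B (χ.2 i)) (w i) =
      ∑ w : Word d χ, act (sh h χ) z w * ∏ i, u i (w i) := by
    have h3 : ∀ w : Word d χ, z w * ∏ i, (x i ᵥ* B (χ.2 i)) (w i) =
        ∑ w' : Word d χ, (∏ i, u i (w' i)) * ((∏ i, h (χ.2 i) (w' i) (w i)) * z w) := by
      intro w
      have h4 : ∏ i, (x i ᵥ* B (χ.2 i)) (w i) =
          ∑ w' : Word d χ, ∏ i, (u i (w' i) * h (χ.2 i) (w' i) (w i)) := by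
        have h5 : ∀ i, (x i ᵥ* B (χ.2 i)) (w i) =
            ∑ b : Fin (d (χ.2 i)), u i b * h (χ.2 i) b (w i) := by
          intro i
          rw [hxu]
          rfl
        rw [prod_congr rfl fun i _ => h5 i, prod_univ_sum, Fintype.piFinset_univ]
      rw [h4, mul_sum]
      refine sum_congr rfl fun w' _ => ?_
      rw [prod_mul_distrib]
      ring
    rw [sum_congr rfl fun w _ => h3 w, sum_comm]
    refine sum_congr rfl fun w' _ => ?_
    rw [← mul_sum, act_apply, mul_comm]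
    rfl
  rw [hsum]
  refine sum_eq_zero fun w _ => ?_
  rw [mul_eq_zero]
  by_contra hcon
  push Not at hcon
  obtain ⟨hact, hprod⟩ := hcon
  have hγ : ∀ i, γ (lt w i) ≤ -a i := by
    intro i
    have h3 : u i (w i) ≠ 0 := fun h => hprod (prod_eq_zero (mem_univ i) h)
    rw [hu] at h3
    simp only [Matrix.vecMul, dotProduct] at h3
    obtain ⟨b', _, hb'⟩ := exists_ne_zero_of_sum_ne_zero h3
    have h4 : (h (χ.2 i)).mulVec (x i) b' ≠ 0 := left_ne_zero_of_mul hb'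
    have h5 := h2 _ _ _ (right_ne_zero_of_mul hb')
    have h6 : ¬ γ ⟨χ.2 i, b'⟩ < a i := fun hlt => h4 (hx i b' hlt)
    unfold lt
    push Not at h6
    linarith
  have hsum2 : wgt γ ⟨χ, w⟩ ≤ -∑ i, a i := by
    unfold wgt
    rw [← sum_neg_distrib]
    exact sum_le_sum fun i _ => hγ i
  rcases hz with ⟨hzA, hpos⟩ | ⟨hzN, hpos⟩
  · have h3 := ho.nonneg ⟨χ, w⟩ ⟨z, hzA, hact⟩
    linarith
  · have h3 := ho.one_le ⟨χ, w⟩ ⟨z, hzN, hact⟩
    linarith

/-- admissible filtrations -/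
structure Adm {K : Type v} [Field K] (B : Mats d K) (A N : Family d K)
    (F : ∀ c, ℝ → Submodule K (Fin (d c) → K)) : Prop where
  bounded : ∃ M, ∀ c, F c M = ⊥
  dual : ∀ c a x, x ∈ F c a ↔ ∀ a', -a < a' → ∀ y ∈ F c a', x ⬝ᵥ (B c).mulVec y = 0
  vanish : ∀ χ (z : Ten d K χ) (a : Fin χ.1 → ℝ) (x : ∀ i, Fin (d (χ.2 i)) → K),
    (∀ i, x i ∈ F (χ.2 i) (a i)) →
    ((z ∈ A χ ∧ 0 < ∑ i, a i) ∨ (z ∈ N χ ∧ -1 < ∑ i, a i)) →
    ∑ w : Word d χ, z w * ∏ i, (x i ᵥ* B (χ.2 i)) (w i) = 0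

namespace Adm

variable {K : Type v} [Field K] {B : Mats d K} {A N : Family d K}
  {F : ∀ c, ℝ → Submodule K (Fin (d c) → K)}

lemma antitone (h : Adm B A N F) (c : Fin P) : Antitone (F c) := fun a a' haa' x hx =>
  (h.dual c a x).mpr fun a'' ha'' y hy =>
    (h.dual c a' x).mp hx a'' (lt_of_le_of_lt (neg_le_neg haa') ha'') y hy

lemma top (h : Adm B A N F) (c : Fin P) : ∃ M, F c M = ⊤ := by
  obtain ⟨M, hM⟩ := h.bounded
  refine ⟨-M, ?_⟩
  rw [eq_top_iff]
  intro x _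
  refine (h.dual c _ x).mpr fun a' ha' y hy => ?_
  rw [neg_neg] at ha'
  have h1 := h.antitone c ha'.le hy
  rw [hM c, Submodule.mem_bot] at h1
  rw [h1, Matrix.mulVec_zero, dotProduct_zero]

lemma cont (h : Adm B A N F) (c : Fin P) (a : ℝ) (x : Fin (d c) → K)
    (hx : ∀ a' < a, x ∈ F c a') : x ∈ F c a := by
  refine (h.dual c a x).mpr fun a' ha' y hy => ?_
  obtain ⟨b, hb, hb'⟩ := exists_between (neg_lt.mp ha')
  exact (h.dual c b x).mp (hx b hb') a' (neg_lt.mp hb) y hy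

/-- an admissible filtration is given by adapted weights -/
lemma exists_weights {G : Mats d K} (hGB : ∀ c, G c * B c = 1) (h : Adm B A N F) :
    ∃ (g : Mats d K) (γ : WSpace d), Adapted A N g γ ∧ (∀ c a, F c a = flag g γ c a) ∧
      ∑ c, filNorm (F c) = ‖γ‖ ^ 2 := by
  choose g γ hdet hF using fun c => exists_adapted_basis (F c) (h.antitone c)
    (h.bounded.imp fun M hM => hM c) (h.top c) (h.cont c)
  set γ' : WSpace d := WithLp.toLp 2 fun s => γ s.1 s.2 with hγ'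
  have hflag : ∀ c a, F c a = flag g γ' c a := by
    intro c a
    ext x
    exact hF c a x
  refine ⟨g, γ', ?_, hflag, ?_⟩
  · refine adapted_of_dual hdet γ' G B hGB (fun c a x => ?_) (fun χ z a x hx hz => ?_)
    · rw [← hflag, h.dual]
      simp only [hflag]
    · exact h.vanish χ z a x (fun i => by rw [hflag]; exact hx i) hz
  · rw [EuclideanSpace.real_norm_sq_eq, Fintype.sum_sigma]
    exact sum_congr rfl fun c _ => filNorm_eq (hdet c) (hF c)

end Adm

section ext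

variable {K : Type v} [Field K] (κ : Type t) [Field κ] [Algebra K κ]

lemma suppW_ext (h : Mats d K) (A : Family d K) :
    suppW (fun c => (h c).map (algebraMap K κ)) (ext κ A) = suppW h A := by
  have key : ∀ (χ : Shape P) (z : Ten d K χ) (w : Word d χ),
      act (sh (fun c => (h c).map (algebraMap K κ)) χ) (emb κ z) w =
        algebraMap K κ (act (sh h χ) z w) := by
    intro χ z w
    exact congrFun (act_map (algebraMap K κ) (sh h χ) z) w
  ext w
  constructor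
  · rintro ⟨_, ⟨z, hz, rfl⟩, hne⟩
    refine ⟨z, hz, fun h0 => hne ?_⟩
    rw [key, h0, map_zero]
  · rintro ⟨z, hz, hne⟩
    refine ⟨_, ⟨z, hz, rfl⟩, fun h0 => hne ?_⟩
    rw [key] at h0
    exact (map_eq_zero _).mp h0

lemma Adapted.ext {A N : Family d K} {h : Mats d K} {γ : WSpace d} (ha : Adapted A N h γ) :
    Adapted (ext κ A) (ext κ N) (fun c => (h c).map (algebraMap K κ)) γ where
  det c := by
    have h1 : ((h c).map (algebraMap K κ)).det = algebraMap K κ (h c).det :=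
      (RingHom.map_det _ _).symm
    rw [h1]
    exact (map_ne_zero _).mpr (ha.det c)
  sum := ha.sum
  nonneg w hw := by
    rw [suppW_ext] at hw
    exact ha.nonneg w hw
  one_le w hw := by
    rw [suppW_ext] at hw
    exact ha.one_le w hw

/-- the flags over `κ` -/
lemma span_flag {h : Mats d K} (hh : ∀ c, (h c).det ≠ 0) (γ : WSpace d) (c : Fin P) (a : ℝ) :
    Submodule.span κ (embV κ '' (flag h γ c a : Set (Fin (d c) → K))) =
      flag (fun c => (h c).map (algebraMap K κ)) γ c a := by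
  have hdet : ∀ c, ((h c).map (algebraMap K κ)).det ≠ 0 := fun c => by
    have h1 : ((h c).map (algebraMap K κ)).det = algebraMap K κ (h c).det :=
      (RingHom.map_det _ _).symm
    rw [h1]
    exact (map_ne_zero _).mpr (hh c)
  refine le_antisymm ?_ ((flag_le_span hdet).trans ?_)
  · rw [Submodule.span_le]
    rintro _ ⟨x, hx, rfl⟩ b hb
    rw [← embV_mulVec, embV, hx b hb, map_zero]
  · rw [Submodule.span_le]
    rintro _ ⟨b, hb, rfl⟩
    refine Submodule.subset_span ⟨((h c)⁻¹).mulVec (Pi.single b 1), single_mem_flag hh hb, ?_⟩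
    have h10 : ((h c).map (algebraMap K κ))⁻¹ = ((h c)⁻¹).map (algebraMap K κ) := by
      apply Matrix.inv_eq_left_inv
      rw [← Matrix.map_mul, Matrix.nonsing_inv_mul _ (isUnit_iff_ne_zero.mpr (hh c)),
        Matrix.map_one _ (map_zero _) (map_one _)]
    rw [h10, embV_mulVec]
    congr 1
    funext i
    by_cases hi : i = b
    · subst hi; simp [embV]
    · simp [embV, Pi.single_eq_of_ne hi]

lemma mem_of_embV_mem_span {k : ℕ} {F : Submodule K (Fin k → K)} {x : Fin k → K}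
    (hx : embV κ x ∈ Submodule.span κ (embV κ '' (F : Set (Fin k → K)))) : x ∈ F := by
  obtain ⟨Q, hQ, hQ'⟩ := L15.exists_proj F
  have key : ∀ y ∈ Submodule.span κ (embV κ '' (F : Set (Fin k → K))),
      (Q.map (algebraMap K κ)).mulVec y = y := by
    intro y hy
    induction hy using Submodule.span_induction with
    | mem y hy =>
      obtain ⟨x, hx, rfl⟩ := hy
      rw [← embV_mulVec, hQ' x hx]
    | zero => rw [Matrix.mulVec_zero]
    | add x y _ _ hx hy => rw [Matrix.mulVec_add, hx, hy]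
    | smul r x _ hx => rw [Matrix.mulVec_smul, hx]
  have h1 := key _ hx
  rw [← embV_mulVec] at h1
  rw [← embV_injective κ h1]
  exact hQ x

end ext

/-- flags of optimal weights -/
lemma flag_le_of_leW {κ : Type u} [Field κ] {h h' : Mats d κ} {γ γ' : WSpace d}
    (hh : ∀ c, (h c).det ≠ 0) {c : Fin P}
    (hk : LeW (h' c * (h c)⁻¹) (fun a => γ ⟨c, a⟩) (fun a => γ' ⟨c, a⟩)) (a : ℝ) :
    flag h γ c a ≤ flag h' γ' c a := by
  intro x hx b hb
  have h1 : (h' c).mulVec x = (h' c * (h c)⁻¹).mulVec ((h c).mulVec x) := by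
    rw [Matrix.mulVec_mulVec, Matrix.mul_assoc,
      Matrix.nonsing_inv_mul _ (isUnit_iff_ne_zero.2 (hh c)), Matrix.mul_one]
  rw [h1, Matrix.mulVec, dotProduct]
  refine Finset.sum_eq_zero fun b' _ => ?_
  by_cases h2 : (h' c * (h c)⁻¹) b b' = 0
  · rw [h2, zero_mul]
  · rw [hx b' (lt_of_le_of_lt (hk b b' h2) hb), mul_zero]

/-- **minimality and uniqueness** -/
theorem minimal_of_optimal {K : Type v} [Field K] {κ : Type t} [Field κ] [Algebra K κ]
    {A N : Family d K} {G B : Mats d K} (hGB : ∀ c, G c * B c = 1) {h : Mats d κ} {γ : WSpace d}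
    (ho : Optimal (ext κ A) (ext κ N) h γ) {F : ∀ c, ℝ → Submodule K (Fin (d c) → K)}
    (hF : ∀ c a, Submodule.span κ (embV κ '' (F c a : Set (Fin (d c) → K))) = flag h γ c a)
    (hadm : Adm B A N F) {F' : ∀ c, ℝ → Submodule K (Fin (d c) → K)} (hadm' : Adm B A N F') :
    ∑ c, filNorm (F c) ≤ ∑ c, filNorm (F' c) ∧
      (∑ c, filNorm (F' c) = ∑ c, filNorm (F c) → F' = F) := by
  obtain ⟨h₀, γ₀, ha₀, hF₀, hn₀⟩ := hadm.exists_weights hGB
  obtain ⟨h₁, γ₁, ha₁, hF₁, hn₁⟩ := hadm'.exists_weights hGB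
  -- the norm of `F`
  have hnorm : ‖γ₀‖ ^ 2 = ‖γ‖ ^ 2 := by
    rw [EuclideanSpace.real_norm_sq_eq, EuclideanSpace.real_norm_sq_eq, Fintype.sum_sigma,
      Fintype.sum_sigma]
    refine sum_congr rfl fun c _ => ?_
    have h1 := filNorm_eq (F := fun a => flag h γ c a) (h := h c) (γ := fun b => γ ⟨c, b⟩)
      (ho.1.det c) (fun a x => Iff.rfl)
    have h2 := filNorm_eq (F := fun a => flag h γ c a)
      (h := (h₀ c).map (algebraMap K κ)) (γ := fun b => γ₀ ⟨c, b⟩)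
      ((ha₀.ext κ).det c) (fun a x => by
        rw [← hF c a, hF₀ c a, span_flag κ ha₀.det]
        exact Iff.rfl)
    rw [← h1, ← h2]
  have hle : ‖γ‖ ≤ ‖γ₁‖ := ho.2 _ _ (ha₁.ext κ)
  refine ⟨?_, fun heq => ?_⟩
  · rw [hn₀, hn₁, hnorm]
    exact pow_le_pow_left₀ (norm_nonneg _) hle 2
  · have h1 : ‖γ₁‖ = ‖γ‖ := by
      have h2 : ‖γ₁‖ ^ 2 = ‖γ‖ ^ 2 := by rw [← hn₁, heq, hn₀, hnorm]
      exact (pow_left_inj₀ (norm_nonneg _) (norm_nonneg _) two_ne_zero).mp h2
    have h3 := fun c => comparison ho.2 ho.1 (ha₁.ext κ) h1.le c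
    have h4 := fun c => comparison (fun h' γ' hh => h1.le.trans (ho.2 h' γ' hh))
      (ha₁.ext κ) ho.1 h1.ge c
    have h5 : ∀ c a, flag h γ c a = flag (fun c => (h₁ c).map (algebraMap K κ)) γ₁ c a :=
      fun c a => le_antisymm (flag_le_of_leW ho.1.det (h3 c) a)
        (flag_le_of_leW (ha₁.ext κ).det (h4 c) a)
    funext c a
    ext x
    have h6 : ∀ {C : Submodule K (Fin (d c) → K)} {x : Fin (d c) → K}, x ∈ C ↔
        embV κ x ∈ Submodule.span κ (embV κ '' (C : Set (Fin (d c) → K))) := fun {C x} =>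
      ⟨fun hx => Submodule.subset_span ⟨x, hx, rfl⟩, mem_of_embV_mem_span κ⟩
    rw [h6, h6 (C := F c a), hF c a, h5 c a, hF₁ c a, span_flag κ ha₁.det]

end Pool.Agent.Helper11.Can
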