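import Mathlib
import Pool.Agent.Helper11.Can.Defs
import Pool.Agent.Helper11.Can.Basic
import Pool.Agent.Helper11.Can.Min
import Pool.Agent.Helper2.CAN.L1
import Pool.Agent.Helper8.CAN.L2
import Pool.Agent.Helper55.CAN.L3
import Pool.Agent.Helper7.CAN.L4
import Pool.Agent.Helper42.CAN.L5
import Pool.Agent.Helper39.CAN.L6
import Pool.Agent.Helper91.CAN.L7
import Pool.Agent.Helper59.CAN.L8
import Pool.Agent.Helper85.CAN.L10
import Pool.Agent.Helper64.CAN.L11
import Pool.Agent.Helper82.CAN.L12
import Pool.Agent.Helper54.CAN.L13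
import Pool.Agent.Helper87.CAN.L15
import Pool.Agent.Helper8.CAN.L17

/-!
# The canonical filtration: linear algebra
-/

universe u v t

open Finset Matrix

namespace Pool.Agent.Helper11.Can

open Pool.Agent.Helper10.GIT Pool.Agent.Helper11.GIT
open Pool.Agent.Helper11.Obs (filNorm)

variable {P : ℕ} {d : Fin P → ℕ}

variable {K : Type v} [Field K] [CharZero K]

/-- **The canonical filtration, linear algebra.** -/
theorem exists_filtration {A N : Family d K}
    (hNA : ∀ χ, N χ ⊆ A χ) {n : ℕ} (hn : ∀ χ, n < χ.1 → A χ = ∅) (G B : Mats d K)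
    (hGB : ∀ c, G c * B c = 1) (hGA : ∀ c, mten c (G c) ∈ A (two c)) (hpz : PZero B A N) :
    ∃ F : ∀ c, ℝ → Submodule K (Fin (d c) → K), Adm B A N F ∧
      (∀ F', Adm B A N F' → ∑ c, filNorm (F c) ≤ ∑ c, filNorm (F' c) ∧
        (∑ c, filNorm (F' c) = ∑ c, filNorm (F c) → F' = F)) ∧
      (∀ χ (z z' : Ten d K χ), z ∈ A χ → z' ∈ A χ →
        (∀ (a : Fin χ.1 → ℝ) (x : ∀ i, Fin (d (χ.2 i)) → K), (∀ i, x i ∈ F (χ.2 i) (a i)) →
          ∑ i, a i = 0 → ∑ w : Word d χ, z w * ∏ i, (x i ᵥ* B (χ.2 i)) (w i) = 0) →
        ∑ w : Word d χ, ∑ w' : Word d χ, z w * (∏ i, B (χ.2 i) (w' i) (w i)) * z' w' = 0) ∧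
      (∀ (Ω : Type t) [Field Ω] [Algebra K Ω] (ρ : Mats d Ω), (∀ c, (ρ c).det ≠ 0) →
        (∀ χ, ∀ z ∈ A χ, act (sh ρ χ) (emb Ω z) ∈ Submodule.span Ω (ext Ω A χ)) →
        (∀ χ, ∀ z ∈ N χ, act (sh ρ χ) (emb Ω z) ∈ Submodule.span Ω (ext Ω N χ)) →
        ∀ c a, ∀ x ∈ F c a, (ρ c).mulVec (embV Ω x) ∈
          Submodule.span Ω (embV Ω '' (F c a : Set (Fin (d c) → K)))) ∧
      ((∀ χ, ∀ z ∈ N χ, z = 0) → ∀ c a, 0 < a → F c a = ⊥) := by
  classical
  have hdetG : ∀ c, (G c).det ≠ 0 := by
    intro c h0
    have h1 := congrArg Matrix.det (hGB c)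
    rw [Matrix.det_mul, h0, zero_mul, Matrix.det_one] at h1
    exact zero_ne_one h1
  have hdetB : ∀ c, (B c).det ≠ 0 := by
    intro c h0
    have h1 := congrArg Matrix.det (hGB c)
    rw [Matrix.det_mul, h0, mul_zero, Matrix.det_one] at h1
    exact zero_ne_one h1
  have hD : DZero A N := dZero_of_pZero B hdetB hpz
  -- unbalanced supports over the algebraic closure
  obtain ⟨κ₁, _, _, h₁, hh₁, hU₁⟩ := exists_unbal hNA
    (fun e {I} _ χ z hz hN w => fis_genDet_cf hD e χ z hz hN w) (fun a b => fis_genDet_add a b)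
  obtain ⟨h₂, hh₂, hsub₂⟩ := exists_specialize (K := K) h₁ hh₁
  have hU₂ : Unbal (suppW h₂ (ext (AlgebraicClosure K) A)) (suppW h₂ (ext (AlgebraicClosure K) N)) := hU₁.mono (hsub₂ A) (hsub₂ N)
  have hNA' : ∀ χ, ext (AlgebraicClosure K) N χ ⊆ ext (AlgebraicClosure K) A χ := ext_mono (AlgebraicClosure K) hNA
  have hn' : ∀ χ, n < χ.1 → ext (AlgebraicClosure K) A χ = ∅ := ext_empty (AlgebraicClosure K) hn
  obtain ⟨γ₂, hγ1, hγ2, hγ3⟩ := exists_weight
    ((finite_words n).subset (suppW_le hn' h₂)) (suppW_mono hNA' h₂) hU₂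
  obtain ⟨h, γ, ho⟩ := exists_optimal hNA' hn' ⟨h₂, γ₂, hh₂, hγ1, hγ2, hγ3⟩
  have had := ho.1
  have hh := had.det
  -- Galois descent
  have hspan : ∀ c a, Submodule.span (AlgebraicClosure K) (embV (AlgebraicClosure K) '' {x : Fin (d c) → K |
      embV (AlgebraicClosure K) x ∈ flag h γ c a}) = flag h γ c a := by
    intro c a
    refine span_rational _ fun τ x hx => ?_
    refine flag_galois (fun h1 h2 h3 h4 c => comparison h1 h2 h3 h4 c) ho (τ : (AlgebraicClosure K) ≃+* (AlgebraicClosure K)) ?_ ?_
      c a x hx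
    · rintro χ _ ⟨z, hz, rfl⟩
      funext w
      exact τ.commutes (z w)
    · rintro χ _ ⟨z, hz, rfl⟩
      funext w
      exact τ.commutes (z w)
  set F : ∀ c, ℝ → Submodule K (Fin (d c) → K) := fun c a => ratS (flag h γ c a) with hF
  have hF' : ∀ c a, Submodule.span (AlgebraicClosure K) (embV (AlgebraicClosure K) '' (F c a : Set (Fin (d c) → K))) =
      flag h γ c a := hspan
  have hinj : Function.Injective (algebraMap K (AlgebraicClosure K)) := (algebraMap K (AlgebraicClosure K)).injective
  -- the Gram matrices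
  have hmapGB : ∀ c, (G c).map (algebraMap K (AlgebraicClosure K)) * (B c).map (algebraMap K (AlgebraicClosure K)) = 1 := by
    intro c
    rw [← Matrix.map_mul, hGB, Matrix.map_one _ (map_zero _) (map_one _)]
  have hgw := fun c => gram_weights had c ((G c).map (algebraMap K (AlgebraicClosure K))) (by
    have h1 : ((G c).map (algebraMap K (AlgebraicClosure K))).det = algebraMap K (AlgebraicClosure K) (G c).det :=
      (RingHom.map_det _ _).symm
    rw [h1]
    exact fun h0 => hdetG c (hinj (by rw [h0, map_zero]))) ⟨_, hGA c, emb_mten (AlgebraicClosure K) c (G c)⟩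
  have hadm : Adm B A N F := by
    refine ⟨?_, ?_, ?_⟩
    · -- bounded
      obtain ⟨M, hM⟩ := (Set.finite_range (fun s : (Σ c : Fin P, Fin (d c)) => γ s)).bddAbove
      refine ⟨M + 1, fun c => ?_⟩
      rw [eq_bot_iff]
      intro x hx
      have h1 : (h c).mulVec (embV (AlgebraicClosure K) x) = 0 := by
        funext b
        exact hx b (lt_of_le_of_lt (hM ⟨⟨c, b⟩, rfl⟩) (by linarith))
      have h2 : embV (AlgebraicClosure K) x = 0 := by
        have h3 := congrArg ((h c)⁻¹).mulVec h1
        rwa [Matrix.mulVec_mulVec, Matrix.nonsing_inv_mul _ (isUnit_iff_ne_zero.mpr (hh c)),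
          Matrix.one_mulVec, Matrix.mulVec_zero] at h3
      rw [Submodule.mem_bot]
      exact embV_injective (AlgebraicClosure K) (by rw [h2, embV_zero])
    · -- duality
      intro c a x
      have key := fun x => flag_dual c (hh c) ((G c).map (algebraMap K (AlgebraicClosure K)))
        ((B c).map (algebraMap K (AlgebraicClosure K))) (hmapGB c) (hgw c).1 (hgw c).2 a x
      constructor
      · intro hx a' ha' y hy
        have h1 := (key (embV (AlgebraicClosure K) x)).mp hx a' ha'
          (embV (AlgebraicClosure K) y) hy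
        rw [← embV_mulVec, embV_dotProduct] at h1
        exact hinj (by rw [h1, map_zero])
      · intro hx
        refine (key (embV (AlgebraicClosure K) x)).mpr fun a' ha' y hy => ?_
        rw [← hF' c a'] at hy
        induction hy using Submodule.span_induction with
        | mem y hy =>
          obtain ⟨y, hy, rfl⟩ := hy
          rw [← embV_mulVec, embV_dotProduct, hx a' ha' y hy, map_zero]
        | zero => rw [Matrix.mulVec_zero, dotProduct_zero]
        | add y y' _ _ hy hy' => rw [Matrix.mulVec_add, dotProduct_add, hy, hy', add_zero]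
        | smul r y _ hy => rw [Matrix.mulVec_smul, dotProduct_smul, hy, smul_zero]
    · -- vanishing
      intro χ z a x hx hz
      have h1 := flag_vanish' (A := ext (AlgebraicClosure K) A)
        (N := ext (AlgebraicClosure K) N) had
        (fun c => (G c).map (algebraMap K (AlgebraicClosure K)))
        (fun c => (B c).map (algebraMap K (AlgebraicClosure K))) hmapGB
        (fun c => (hgw c).2) (emb (AlgebraicClosure K) z) a
        (fun i => embV (AlgebraicClosure K) (x i)) hx (by
          rcases hz with ⟨hz, ha⟩ | ⟨hz, ha⟩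
          · exact .inl ⟨⟨z, hz, rfl⟩, ha⟩
          · exact .inr ⟨⟨z, hz, rfl⟩, ha⟩)
      apply hinj
      rw [map_zero, ← h1, map_sum]
      refine sum_congr rfl fun w _ => ?_
      rw [map_mul, map_prod]
      refine congrArg₂ (· * ·) rfl (prod_congr rfl fun i _ => ?_)
      exact congrFun (embV_vecMul (AlgebraicClosure K) (B (χ.2 i)) (x i)) (w i)
  refine ⟨F, hadm, fun F'' hadm'' => minimal_of_optimal hGB ho hF' hadm hadm'', ?_, ?_, ?_⟩
  · -- contractions
    intro χ z z' hz hz' h0
    have h1 := flag_contract (A := ext (AlgebraicClosure K) A) (N := ext (AlgebraicClosure K) N) had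
      (fun c => (G c).map (algebraMap K (AlgebraicClosure K))) (fun c => (B c).map (algebraMap K (AlgebraicClosure K))) hmapGB
      (fun c => (hgw c).1) (fun c => (hgw c).2) (emb (AlgebraicClosure K) z) (emb (AlgebraicClosure K) z') ⟨z, hz, rfl⟩ ⟨z', hz', rfl⟩
      (by
        intro a x hx ha
        let f : MultilinearMap (AlgebraicClosure K) (fun i : Fin χ.1 => Fin (d (χ.2 i)) → (AlgebraicClosure K)) (AlgebraicClosure K) :=
          ∑ w : Word d χ, (emb (AlgebraicClosure K) z w) • (MultilinearMap.mkPiAlgebra (AlgebraicClosure K) (Fin χ.1) (AlgebraicClosure K)).compLinearMap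
            fun i => (LinearMap.proj (w i)).comp
              (Matrix.vecMulLinear ((B (χ.2 i)).map (algebraMap K (AlgebraicClosure K))))
        have hf : ∀ x, f x = ∑ w : Word d χ, emb (AlgebraicClosure K) z w *
            ∏ i, (x i ᵥ* (B (χ.2 i)).map (algebraMap K (AlgebraicClosure K))) (w i) := by
          intro x
          simp [f]
        rw [← hf]
        refine multilinear_span f
          (fun i => embV (AlgebraicClosure K) '' (F (χ.2 i) (a i) : Set (Fin (d (χ.2 i)) → K))) ?_ x
          fun i => by rw [hF' (χ.2 i) (a i)]; exact hx i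
        intro x hx
        choose x₀ hx₀ hx₁ using hx
        have h2 := h0 a x₀ hx₀ ha
        rw [hf, ← map_zero (algebraMap K (AlgebraicClosure K)), ← h2, map_sum]
        refine sum_congr rfl fun w _ => ?_
        rw [map_mul, map_prod]
        refine congrArg₂ (· * ·) rfl (prod_congr rfl fun i _ => ?_)
        rw [← hx₁ i]
        exact (congrFun (embV_vecMul (AlgebraicClosure K) (B (χ.2 i)) (x₀ i)) (w i)).symm)
    apply hinj
    rw [map_zero, ← h1]
    simp only [map_sum, map_mul, map_prod]
    rfl
  · -- symmetries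
    intro Ω _ _ ρ hρ hρA hρN c a x hx
    let κ := AlgebraicClosure Ω
    let j : (AlgebraicClosure K) →ₐ[K] κ := IsAlgClosed.lift
    have hj : ∀ a : K, (j : (AlgebraicClosure K) →+* κ) (algebraMap K (AlgebraicClosure K) a) = algebraMap K κ a := fun a => j.commutes a
    have hoκ := optimal_map (κ := κ) (fun h hh => exists_specialize h hh) (j : (AlgebraicClosure K) →+* κ) hj ho
    have htower : ∀ a : K, algebraMap Ω κ (algebraMap K Ω a) = algebraMap K κ a := fun a =>
      (IsScalarTower.algebraMap_apply K Ω κ a).symm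
    have hstab : ∀ (C : Family d K) (χ : Shape P),
        (∀ z ∈ C χ, act (sh ρ χ) (emb Ω z) ∈ Submodule.span Ω (ext Ω C χ)) →
        ∀ z ∈ ext κ C χ, act (sh (fun c => (ρ c).map (algebraMap Ω κ)) χ) z ∈
          Submodule.span κ (ext κ C χ) := by
      rintro C χ hC _ ⟨z, hz, rfl⟩
      have h1 : act (sh (fun c => (ρ c).map (algebraMap Ω κ)) χ) (emb κ z) =
          fun w => algebraMap Ω κ (act (sh ρ χ) (emb Ω z) w) := by
        have h2 := act_map (algebraMap Ω κ) (sh ρ χ) (emb Ω z)
        rw [← h2]
        rfl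
      rw [h1]
      have h3 := hC z hz
      generalize act (sh ρ χ) (emb Ω z) = y at h3
      induction h3 using Submodule.span_induction with
      | mem y hy =>
        obtain ⟨y, hy, rfl⟩ := hy
        refine Submodule.subset_span ⟨y, hy, ?_⟩
        funext w
        exact (htower _).symm
      | zero =>
        have : (fun w => algebraMap Ω κ ((0 : Ten d Ω χ) w)) = 0 := by funext w; simp
        rw [this]; exact Submodule.zero_mem _
      | add y y' _ _ hy hy' =>
        have : (fun w => algebraMap Ω κ ((y + y') w)) =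
            (fun w => algebraMap Ω κ (y w)) + fun w => algebraMap Ω κ (y' w) := by
          funext w; simp
        rw [this]; exact Submodule.add_mem _ hy hy'
      | smul r y _ hy =>
        have : (fun w => algebraMap Ω κ ((r • y) w)) =
            algebraMap Ω κ r • fun w => algebraMap Ω κ (y w) := by
          funext w; simp
        rw [this]; exact Submodule.smul_mem _ _ hy
    have hdetρ : ∀ c, ((ρ c).map (algebraMap Ω κ)).det ≠ 0 := by
      intro c
      have h1 : ((ρ c).map (algebraMap Ω κ)).det = algebraMap Ω κ (ρ c).det :=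
        (RingHom.map_det _ _).symm
      rw [h1]
      exact fun h0 => hρ c ((algebraMap Ω κ).injective (by rw [h0, map_zero]))
    have hxκ : embV κ x ∈ flag (fun c => (h c).map (j : (AlgebraicClosure K) →+* κ)) γ c a := by
      intro b hb
      have h1 := hx b hb
      have h2 : ((h c).map (j : (AlgebraicClosure K) →+* κ)).mulVec (embV κ x) b =
          (j : (AlgebraicClosure K) →+* κ) ((h c).mulVec (embV (AlgebraicClosure K) x) b) := by
        simp only [Matrix.mulVec, dotProduct, map_sum, map_mul, Matrix.map_apply]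
        refine sum_congr rfl fun i _ => ?_
        congr 1
        exact (hj _).symm
      rw [h2, h1, map_zero]
    have h5 := flag_linear (fun h1 h2 h3 h4 c => comparison h1 h2 h3 h4 c) hoκ
      (fun c => (ρ c).map (algebraMap Ω κ)) hdetρ (fun χ => hstab A χ (hρA χ))
      (fun χ => hstab N χ (hρN χ)) c a _ hxκ
    refine mem_span_of_mem_span (algebraMap Ω κ) htower (F c a) _ ?_
    have h6 : (fun i => algebraMap Ω κ ((ρ c).mulVec (embV Ω x) i)) =
        ((ρ c).map (algebraMap Ω κ)).mulVec (embV κ x) := by
      funext i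
      simp only [Matrix.mulVec, dotProduct, map_sum, map_mul, Matrix.map_apply]
      exact sum_congr rfl fun i _ => congrArg _ (htower _)
    rw [h6]
    -- the flag over `κ` is spanned by the rational vectors
    have h7 : flag (fun c => (h c).map (j : (AlgebraicClosure K) →+* κ)) γ c a ≤
        Submodule.span κ (embV κ '' (F c a : Set (Fin (d c) → K))) := by
      refine (flag_le_span hoκ.1.det).trans ?_
      rw [Submodule.span_le]
      rintro _ ⟨b, hb, rfl⟩
      -- the member of the dual basis over the algebraic closure of `K`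
      have h8 : ((h c)⁻¹).mulVec (Pi.single b 1) ∈ flag h γ c a := single_mem_flag hh hb
      rw [← hF' c a] at h8
      have h9 : (((h c).map (j : (AlgebraicClosure K) →+* κ))⁻¹).mulVec (Pi.single b 1) =
          fun i => (j : (AlgebraicClosure K) →+* κ) (((h c)⁻¹).mulVec (Pi.single b 1) i) := by
        have h10 : ((h c).map (j : (AlgebraicClosure K) →+* κ))⁻¹ = ((h c)⁻¹).map (j : (AlgebraicClosure K) →+* κ) := by
          apply Matrix.inv_eq_left_inv
          rw [← Matrix.map_mul, Matrix.nonsing_inv_mul _ (isUnit_iff_ne_zero.mpr (hh c)),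
            Matrix.map_one _ (map_zero _) (map_one _)]
        rw [h10]
        funext i
        rw [Matrix.mulVec_single_one, Matrix.mulVec_single_one]
        rfl
      rw [SetLike.mem_coe, h9]
      generalize ((h c)⁻¹).mulVec (Pi.single b 1) = y at h8
      induction h8 using Submodule.span_induction with
      | mem y hy =>
        obtain ⟨y, hy, rfl⟩ := hy
        refine Submodule.subset_span ⟨y, hy, ?_⟩
        funext i
        exact (hj _).symm
      | zero =>
        have : (fun i => (j : (AlgebraicClosure K) →+* κ) ((0 : Fin (d c) → (AlgebraicClosure K)) i)) = 0 := by funext i; simp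
        rw [this]; exact Submodule.zero_mem _
      | add y y' _ _ hy hy' =>
        have : (fun i => (j : (AlgebraicClosure K) →+* κ) ((y + y') i)) =
            (fun i => (j : (AlgebraicClosure K) →+* κ) (y i)) + fun i => (j : (AlgebraicClosure K) →+* κ) (y' i) := by
          funext i; simp
        rw [this]; exact Submodule.add_mem _ hy hy'
      | smul r y _ hy =>
        have : (fun i => (j : (AlgebraicClosure K) →+* κ) ((r • y) i)) =
            (j : (AlgebraicClosure K) →+* κ) r • fun i => (j : (AlgebraicClosure K) →+* κ) (y i) := by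
          funext i; simp
        rw [this]; exact Submodule.smul_mem _ _ hy
    exact h7 h5
  · -- the trivial case
    intro hN0 c a ha
    have hadz : Adapted (ext (AlgebraicClosure K) A) (ext (AlgebraicClosure K) N) h 0 := by
      refine ⟨hh, fun c => ?_, fun w _ => ?_, fun w hw => ?_⟩
      · simp
      · simp [wgt]
      · exfalso
        obtain ⟨_, ⟨z, hz, rfl⟩, hw⟩ := hw
        rw [hN0 _ z hz] at hw
        apply hw
        have h1 : emb (AlgebraicClosure K) (0 : Ten d K w.1) = 0 := by
          funext w; simp [emb]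
        rw [h1, map_zero]
        rfl
    have h1 := ho.2 h 0 hadz
    rw [norm_zero] at h1
    have hγ0 : γ = 0 := norm_le_zero_iff.mp h1
    rw [eq_bot_iff]
    intro x hx
    have h2 : (h c).mulVec (embV (AlgebraicClosure K) x) = 0 := by
      funext b
      refine hx b ?_
      rw [hγ0]
      exact ha
    have h3 : embV (AlgebraicClosure K) x = 0 := by
      have h3 := congrArg ((h c)⁻¹).mulVec h2
      rwa [Matrix.mulVec_mulVec, Matrix.nonsing_inv_mul _ (isUnit_iff_ne_zero.mpr (hh c)),
        Matrix.one_mulVec, Matrix.mulVec_zero] at h3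
    rw [Submodule.mem_bot]
    exact embV_injective (AlgebraicClosure K) (by rw [h3, embV_zero])

end Pool.Agent.Helper11.Can
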