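import Mathlib
import Pool.Agent.Helper82.CAN.C8

/-!
# Tensors over `K` give tensors over `Ω`
-/

universe u v w t

open CategoryTheory Finset

namespace Pool.Agent.Helper11.Can

open Pool.Agent.Helper10 hiding IsAlgAut parityPart
open SmProjVar SPre Pool.Agent.Helper10.GIT Pool.Agent.Helper11.Iso

variable {k : Type u} [Field k] {K : Type v} [Field K] [CharZero K]
  (W : WeilCohomology.{u, v, w} k K) {P : ℕ} {d : Fin P → ℕ} {V : Fin P → SmProjVar k}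
  (e : ∀ c, Fin (d c) → W.H (V c)) (𝒳 : SmProjVar k → Prop) (Ω : Type t) [Field Ω] [Algebra K Ω]

theorem ext_kA_subset (χ : Shape P) :
    ext Ω (kA W e 𝒳) χ ⊆ famA (W.toSPre Ω) (oneF W e Ω) 𝒳 χ := by
  rintro _ ⟨_, ⟨T, X, p, f, r, x, hX, hr, rfl⟩, rfl⟩
  exact ⟨T, X, p, f, Obs.one W Ω r, Obs.one W Ω x, hX, Obs.one_mem_alg W Ω hr,
    (C8.ctens_one W e Ω p f r x).symm⟩

theorem ext_kN_subset (χ : Shape P) :
    ext Ω (kN W e 𝒳) χ ⊆ famN (W.toSPre Ω) (oneF W e Ω) 𝒳 χ := by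
  rintro _ ⟨_, ⟨T, X, p, f, r, x, hX, hr, hr0, rfl⟩, rfl⟩
  refine ⟨T, X, p, f, Obs.one W Ω r, Obs.one W Ω x, hX, ⟨Obs.one_mem_alg W Ω hr,
    fun a ha => ?_⟩, (C8.ctens_one W e Ω p f r x).symm⟩
  refine Obs.bc_induction W Ω (S := W.algClasses T)
    (p := fun a => (W.toSPre Ω).tr T (Obs.one W Ω r * a) = 0) (fun a ha => ?_) ?_
    (fun x y hx hy => ?_) (fun a x hx => ?_) ha
  · rw [Obs.tr_one_mul]
    have h1 : W.pairing T r a = 0 := hr0 a ha
    rw [h1, map_zero]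
  · rw [mul_zero, map_zero]
  · rw [mul_add, map_add, hx, hy, add_zero]
  · rw [mul_smul_comm, map_smul, hx, smul_zero]

end Pool.Agent.Helper11.Can
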